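import Pool.Agent.helper70.QSD.SpecC

set_option autoImplicit false

/-! # MP_7a3aac_co, row qsd:IDN: the congruences of a presentation -/

namespace Pool.Agent.helper70.QSD

open Pool.Agent.helper53.AU
open scoped Classical IntermediateField Polynomial

noncomputable section

/-- the restriction of `Φ` to `A` -/
def IDN_res (Φ : KS ≃+* KS) (A : Subfield KS) (hs : ∀ x ∈ A, Φ x ∈ A) : A →+* A :=
  (Φ : KS →+* KS).restrict A A hs

theorem IDN_comp (Φ : KS ≃+* KS) (A : Subfield KS) (hs : ∀ x ∈ A, Φ x ∈ A) (y : KS)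
    (hy : Φ y = y) :
    (Φ : KS →+* KS).comp ((Polynomial.aeval y : A[X] →ₐ[A] KS) : A[X] →+* KS) =
      (((Polynomial.aeval y : A[X] →ₐ[A] KS) : A[X] →+* KS)).comp
        (Polynomial.mapRingHom (IDN_res Φ A hs)) := by
  apply Polynomial.ringHom_ext
  · intro a
    simp only [RingHom.comp_apply, RingHom.coe_coe, Polynomial.coe_mapRingHom, Polynomial.map_C,
      Polynomial.aeval_C]
    rfl
  · simp only [RingHom.comp_apply, RingHom.coe_coe, Polynomial.coe_mapRingHom, Polynomial.map_X,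
      Polynomial.aeval_X]
    exact hy

theorem IDN_ev (Φ : KS ≃+* KS) (A : Subfield KS) (hs : ∀ x ∈ A, Φ x ∈ A) (y w : KS)
    (hy : Φ y = y) (G : A[X][X]) :
    Φ (ev y w G) = ev y (Φ w) (mp2 (IDN_res Φ A hs) G) := by
  unfold ev
  have h1 := Polynomial.hom_eval₂ G ((Polynomial.aeval y : A[X] →ₐ[A] KS) : A[X] →+* KS)
    (Φ : KS →+* KS) w
  have h2 : mp2 (IDN_res Φ A hs) G = G.map (Polynomial.mapRingHom (IDN_res Φ A hs)) := rfl
  rw [h2, Polynomial.eval₂_map, ← IDN_comp Φ A hs y hy]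
  exact h1

theorem IDN_ae (Φ : KS ≃+* KS) (A : Subfield KS) (hs : ∀ x ∈ A, Φ x ∈ A) (y : KS)
    (hy : Φ y = y) (h : A[X]) :
    Φ (Polynomial.aeval y h) = Polynomial.aeval y (h.map (IDN_res Φ A hs)) :=
  RingHom.congr_fun (IDN_comp Φ A hs y hy) h

theorem IDN_pow {k F : Type} [CommRing k] [CommRing F] [Algebra k F] (s z : F) (h : k[X]) (M : ℕ) :
    ev s z (Polynomial.C h ^ M) = Polynomial.aeval s h ^ M := by
  unfold ev
  rw [Polynomial.eval₂_pow, Polynomial.eval₂_C]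
  rfl

theorem IDN (hEVR : EVR_stmt) : IDN_stmt := by
  intro Φ A hG E y₁ z m P h Gr GΦ Gx hP
  obtain ⟨⟨eadd, esub, emul, eC, eX, ec⟩, -⟩ := And.intro (hEVR.1 A KS y₁ z) trivial
  have ehc := hEVR.2.1 A KS y₁ z
  have hs := hG.stb
  have hH : Polynomial.aeval y₁ h ≠ 0 := by
    intro h0
    exact hP.hne ((transcendental_iff.1 hP.tr) h h0)
  set H : KS := Polynomial.aeval y₁ h with hHdef
  have hz : ev y₁ z GΦ / H = Φ z := by
    rw [hP.phi, mul_div_assoc, div_self hH, mul_one]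
  have hPz : ev y₁ z P = 0 := (hP.ker P).2 dvd_rfl
  have hdeg : ∀ G : A[X][X], (mp2 (IDN_res Φ A hs) G).natDegree ≤ G.natDegree :=
    fun G => Polynomial.natDegree_map_le
  refine ⟨IDN_res Φ A hs, ?_⟩
  refine
    { res := fun x => rfl
      frz := ?_
      cst := ?_
      add := ?_
      mul := ?_
      fro := ?_ }
  · rw [← hP.ker, ehc _ _ _ _ ((hdeg P).trans hP.deg.le) hH, hz, ← IDN_ev Φ A hs y₁ z hP.fix, hPz,
      map_zero, mul_zero]
  · intro x hx hxA
    rw [← hP.ker, esub, hP.elt x hx, eC, map_mul, Polynomial.aeval_C]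
    exact sub_self _
  · intro x hx x' hx' hxx
    rw [← hP.ker, esub, eadd, hP.elt x hx, hP.elt x' hx', hP.elt _ hxx]
    ring
  · intro x hx x' hx' hxx
    rw [← hP.ker, esub, emul, emul, eC, hP.elt x hx, hP.elt x' hx', hP.elt _ hxx]
    ring
  · intro x hx hΦx M hM
    rw [← hP.ker, esub, emul, emul, emul, eC, eC, IDN_pow, ehc _ _ _ _ ((hdeg _).trans hM) hH, hz,
      ← IDN_ev Φ A hs y₁ z hP.fix, hP.elt x hx, hP.elt _ hΦx, map_mul, ← hHdef, hHdef,
      IDN_ae Φ A hs y₁ hP.fix h]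
    ring

end

end Pool.Agent.helper70.QSD
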