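import Pool.Agent.helper70.QSD.SpecA

set_option autoImplicit false

/-! # MP_7a3aac_co, row qsd:ZCT: the number of zeros of a function with controlled poles -/

namespace Pool.Agent.helper70.QSD

open Pool.Agent.helper53.AU
open scoped Classical IntermediateField Polynomial

noncomputable section

theorem ZCT (hQV4 : QV4_stmt) (hQV5 : QV5_stmt) (hQZ3 : QZ3_stmt) : ZCT_stmt := by
  intro k F _ _ _ _ hF s hs c f hf hpol S hS
  have hs0 : s ≠ 0 := by
    rintro rfl
    exact hs isAlgebraic_zero
  have h1 := hQV4 k F hF f hf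
  have h2 := hQV4 k F hF s hs0
  set U : Finset (Place k F) := S ∪ h1.toFinset ∪ h2.toFinset with hU
  have e1 : ∑ P ∈ U, P.ord f = 0 := by
    rw [← hQV5 k F hF f hf]
    refine (finsum_eq_sum_of_support_subset _ ?_).symm
    intro P hP
    rw [hU]
    simp only [Finset.coe_union, Set.Finite.coe_toFinset, Set.mem_union]
    exact Or.inl (Or.inr hP)
  have e2 : ∑ P ∈ U, max (-P.ord s) 0 = (degx k s : ℤ) := by
    rw [← (hQZ3 k F hF s hs).2]
    refine (finsum_eq_sum_of_support_subset _ ?_).symm
    intro P hP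
    rw [hU]
    simp only [Finset.coe_union, Set.Finite.coe_toFinset, Set.mem_union]
    refine Or.inr ?_
    rw [Function.mem_support] at hP ⊢
    intro h0
    exact hP (by rw [h0]; simp)
  have e3 : (S.card : ℤ) ≤ ∑ P ∈ U, max (P.ord f) 0 := by
    have h3 : (S.card : ℤ) ≤ ∑ P ∈ S, max (P.ord f) 0 := by
      have : (S.card : ℤ) = ∑ _P ∈ S, (1 : ℤ) := by simp
      rw [this]
      refine Finset.sum_le_sum fun P hP => ?_
      rcases hS P hP with h | h
      · exact absurd h hf
      · exact le_max_of_le_left h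
    refine h3.trans (Finset.sum_le_sum_of_subset_of_nonneg ?_ fun P _ _ => le_max_right _ _)
    rw [hU]
    intro P hP
    simp [hP]
  have e4 : ∑ P ∈ U, max (P.ord f) 0 = ∑ P ∈ U, max (-P.ord f) 0 := by
    have : ∀ P ∈ U, max (P.ord f) 0 = P.ord f + max (-P.ord f) 0 := by
      intro P _
      rcases le_total (P.ord f) 0 with h | h
      · rw [max_eq_right h, max_eq_left (by omega)]; ring
      · rw [max_eq_left h, max_eq_right (by omega)]; ring
    rw [Finset.sum_congr rfl this, Finset.sum_add_distrib, e1, zero_add]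
  have e5 : ∑ P ∈ U, max (-P.ord f) 0 ≤ ∑ P ∈ U, (c : ℤ) * max (-P.ord s) 0 := by
    refine Finset.sum_le_sum fun P _ => ?_
    have h4 : 0 ≤ (c : ℤ) * max (-P.ord s) 0 := mul_nonneg (by positivity) (le_max_right _ _)
    refine max_le ?_ h4
    rcases hpol P with h | h
    · exact absurd h hf
    · linarith
  calc (S.card : ℤ) ≤ ∑ P ∈ U, max (P.ord f) 0 := e3
    _ = ∑ P ∈ U, max (-P.ord f) 0 := e4
    _ ≤ ∑ P ∈ U, (c : ℤ) * max (-P.ord s) 0 := e5
    _ = c * degx k s := by rw [← Finset.mul_sum, e2]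

end

end Pool.Agent.helper70.QSD
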